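import Pool.Agent.Helper74.DR.St

/-!
# Project DR (MP_26f0da_lc), module AUE: the empty word does not matter
-/

set_option autoImplicit false

namespace Pool.Agent.Helper51.DR

open Pool.Agent.Helper74.DR

section

variable {α Q : Type} {k : ℕ}

/-- The new automaton: it has one more head, which stays at position `0` and reads the first
letter; state `none` is the initial state, `some none` the end state for the empty word. -/
def dl (δ : Q → (Fin k → Bool × Option α) → Q × (Fin k → Fin 3)) (q₀ : Q) :
    Option (Option Q) → (Fin (k + 1) → Bool × Option α) →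
      Option (Option Q) × (Fin (k + 1) → Fin 3)
  | none, r => (if (r 0).2.isNone then some none else some (some q₀), fun _ => 1)
  | some none, _ => (some none, fun _ => 1)
  | some (some q), r => (some (some (δ q (fun j => r j.succ)).1),
      Fin.cons 1 (δ q (fun j => r j.succ)).2)

variable (δ : Q → (Fin k → Bool × Option α) → Q × (Fin k → Fin 3)) (q₀ : Q)

theorem stp_in (w : List α) (q : Q) (h : Fin k → ℕ) :
    stp (dl δ q₀) w (some (some q), Fin.cons 0 h) =
      (some (some (stp δ w (q, h)).1), Fin.cons 0 (stp δ w (q, h)).2) := by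
  refine Prod.ext ?_ ?_
  · simp [stp, dl]
  · funext i
    refine Fin.cases ?_ ?_ i
    · simp [stp, dl]
    · intro j
      simp [stp, dl]

theorem it_in (w : List α) (c : Q × (Fin k → ℕ)) (n : ℕ) :
    (stp (dl δ q₀) w)^[n] (some (some c.1), Fin.cons 0 c.2) =
      (some (some ((stp δ w)^[n] c).1), Fin.cons 0 ((stp δ w)^[n] c).2) := by
  induction n with
  | zero => rfl
  | succ n ih =>
    rw [Function.iterate_succ_apply', ih, stp_in, Function.iterate_succ_apply']

theorem stp_start (w : List α) :
    stp (dl δ q₀) w (none, fun _ => 0) =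
      (if w[0]?.isNone then some none else some (some q₀), fun _ => 0) := by
  refine Prod.ext ?_ ?_
  · simp [stp, dl]
  · funext i
    simp [stp, dl]

theorem stp_end (w : List α) :
    stp (dl δ q₀) w (some none, fun _ => 0) = (some none, fun _ => 0) := by
  refine Prod.ext ?_ ?_
  · simp [stp, dl]
  · funext i
    simp [stp, dl]

theorem it_end (w : List α) (n : ℕ) :
    (stp (dl δ q₀) w)^[n] (some none, fun _ => 0) = (some none, fun _ => 0) := by
  induction n with
  | zero => rfl
  | succ n ih => rw [Function.iterate_succ_apply', ih, stp_end]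

end

/-- Module AUE. -/
theorem hAUE : StAUE := by
  intro α K₁ K₂ hK h1
  obtain ⟨Q, hQ, k, δ, q₀, acc, h⟩ := (inL_iff K₁).1 h1
  refine (inL_iff K₂).2 ⟨Option (Option Q), inferInstance, k + 1, dl δ q₀, none,
    {s | (s = some none ∧ [] ∈ K₂) ∨ ∃ q ∈ acc, s = some (some q)}, fun w => ?_⟩
  have hc : (fun _ => 0 : Fin (k + 1) → ℕ) = Fin.cons 0 (fun _ : Fin k => 0) := by
    funext i
    refine Fin.cases ?_ ?_ i
    · rfl
    · intro j
      rfl
  rcases Classical.em (w = []) with hw | hw
  · subst hw
    constructor
    · intro h2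
      refine ⟨1, Or.inl ⟨?_, h2⟩⟩
      rw [Function.iterate_one, stp_start]
      simp
    · rintro ⟨n, hn⟩
      rcases n with _ | n
      · rcases hn with ⟨hn, _⟩ | ⟨q, _, hn⟩
        · exact absurd hn (by simp)
        · exact absurd hn (by simp)
      · rw [Function.iterate_succ_apply, stp_start] at hn
        have e : (if ([] : List α)[0]?.isNone then some none else some (some q₀),
            (fun _ => 0 : Fin (k + 1) → ℕ)) = ((some none : Option (Option Q)), fun _ => 0) := by
          simp
        rw [e, it_end] at hn
        rcases hn with ⟨_, hn⟩ | ⟨q, _, hn⟩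
        · exact hn
        · exact absurd hn (by simp)
  · rw [← hK w hw, h w]
    have hn0 : w[0]?.isNone = false := by
      rcases w with _ | ⟨a, w⟩
      · exact absurd rfl hw
      · rfl
    have key : ∀ n : ℕ, (stp (dl δ q₀) w)^[n + 1] (none, fun _ => 0) =
        (some (some ((stp δ w)^[n] (q₀, fun _ => 0)).1),
          Fin.cons 0 ((stp δ w)^[n] (q₀, fun _ => 0)).2) := by
      intro n
      rw [Function.iterate_succ_apply, stp_start, hn0, ← it_in δ q₀, hc]
      simp
    constructor
    · rintro ⟨n, hn⟩
      refine ⟨n + 1, ?_⟩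
      rw [key]
      exact Or.inr ⟨_, hn, rfl⟩
    · rintro ⟨n, hn⟩
      rcases n with _ | n
      · rcases hn with ⟨hn, _⟩ | ⟨q, _, hn⟩
        · exact absurd hn (by simp)
        · exact absurd hn (by simp)
      · rw [key] at hn
        rcases hn with ⟨hn, _⟩ | ⟨q, hq, hn⟩
        · exact absurd hn (by simp)
        · simp only [Option.some.injEq] at hn
          exact ⟨n, by rw [hn]; exact hq⟩

end Pool.Agent.Helper51.DR
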